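import Mathlib

namespace Pool.Agent.Results.MP_63f2bb_co.Disproof

variable {V : Type}

/-- Every element of `S` is an automorphism of `G`. -/
def IsAutGroup (G : SimpleGraph V) (S : Subgroup (Equiv.Perm V)) : Prop :=
  ∀ σ ∈ S, ∀ u v, G.Adj (σ u) (σ v) ↔ G.Adj u v

def ArcTransitive (G : SimpleGraph V) (S : Subgroup (Equiv.Perm V)) : Prop :=
  ∀ u v u' v', G.Adj u v → G.Adj u' v' → ∃ σ ∈ S, σ u = u' ∧ σ v = v'

/-- Invariance under the coordinate action `(σ x)_{σ i} = x_i`. -/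
def Invariant (S : Subgroup (Equiv.Perm V)) (W : Submodule ℝ (V → ℝ)) : Prop :=
  ∀ σ ∈ S, ∀ x ∈ W, (fun i => x (σ.symm i)) ∈ W

def Irred (S : Subgroup (Equiv.Perm V)) (W : Submodule ℝ (V → ℝ)) : Prop :=
  W ≠ ⊥ ∧ Invariant S W ∧ ∀ U ≤ W, Invariant S U → U = ⊥ ∨ U = W

abbrev P := Fin 7 × Bool

def hadj (u v : P) : Bool :=
  (u.2 && !v.2 && (v.1 - u.1 == 1 || v.1 - u.1 == 2 || v.1 - u.1 == 4)) ||
  (v.2 && !u.2 && (u.1 - v.1 == 1 || u.1 - v.1 == 2 || u.1 - v.1 == 4))

/-- The Heawood graph. -/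
def G : SimpleGraph P where
  Adj u v := hadj u v = true
  symm := ⟨fun u v h => by unfold hadj at h ⊢; rw [Bool.or_comm]; exact h⟩
  loopless := ⟨by decide⟩

instance : DecidableRel G.Adj := fun u v => inferInstanceAs (Decidable (hadj u v = true))

/-- The automorphisms that preserve the fibres of the first coordinate. -/
def S : Subgroup (Equiv.Perm P) where
  carrier := {σ | (∀ u v, G.Adj (σ u) (σ v) ↔ G.Adj u v) ∧ ∀ u v, (σ u).1 = (σ v).1 ↔ u.1 = v.1}
  mul_mem' := fun {a b} ha hb => ⟨fun u v => (ha.1 _ _).trans (hb.1 u v),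
    fun u v => (ha.2 _ _).trans (hb.2 u v)⟩
  one_mem' := ⟨fun _ _ => Iff.rfl, fun _ _ => Iff.rfl⟩
  inv_mem' := fun {a} ha => ⟨fun u v => by rw [← ha.1]; simp, fun u v => by rw [← ha.2]; simp⟩

def t (m b : Fin 7) (u : P) : P := (m * u.1 + b, xor u.2 (m == 3 || m == 5 || m == 6))

lemma tinj : ∀ m b : Fin 7, m ≠ 0 → ∀ u v, t m b u = t m b v → u = v := by decide +kernel
lemma tadj : ∀ m b : Fin 7, m ≠ 0 → ∀ u v, G.Adj (t m b u) (t m b v) ↔ G.Adj u v := by
  decide +kernel
lemma tfib : ∀ m b : Fin 7, m ≠ 0 → ∀ u v, (t m b u).1 = (t m b v).1 ↔ u.1 = v.1 := by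
  decide +kernel
lemma tarc : ∀ u v u' v', G.Adj u v → G.Adj u' v' →
    ∃ m b : Fin 7, m ≠ 0 ∧ t m b u = u' ∧ t m b v = v' := by decide +kernel

noncomputable def T (m b : Fin 7) (h : m ≠ 0) : Equiv.Perm P :=
  Equiv.ofBijective (t m b) (Finite.injective_iff_bijective.1 (tinj m b h))

lemma TS (m b : Fin 7) (h : m ≠ 0) : T m b h ∈ S := ⟨tadj m b h, tfib m b h⟩

/-- Vectors constant on fibres with coordinate sum zero. -/
def W : Submodule ℝ (P → ℝ) where
  carrier := {x | (∀ u v, u.1 = v.1 → x u = x v) ∧ ∑ u, x u = 0}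
  add_mem' := fun {a b} ha hb => ⟨fun u v h => by simp [ha.1 u v h, hb.1 u v h],
    by simp [Finset.sum_add_distrib, ha.2, hb.2]⟩
  zero_mem' := ⟨fun _ _ _ => rfl, by simp⟩
  smul_mem' := fun c a ha => ⟨fun u v h => by simp [ha.1 u v h],
    by simp [← Finset.mul_sum, ha.2]⟩

lemma comp_mem {U : Submodule ℝ (P → ℝ)} (hU : Invariant S U) {x : P → ℝ} (hx : x ∈ U)
    (m b : Fin 7) (h : m ≠ 0) : (fun i => x (t m b i)) ∈ U :=
  hU (T m b h)⁻¹ (S.inv_mem (TS m b h)) x hx

lemma rep {x : P → ℝ} (hx : x ∈ W) : ∃ f : Fin 7 → ℝ, x = (fun u => f u.1) ∧ ∑ a, f a = 0 := by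
  refine ⟨fun a => x (a, true), funext fun u => hx.1 _ _ rfl, ?_⟩
  have := hx.2
  rw [Fintype.sum_prod_type] at this
  simp only [Fintype.sum_bool] at this
  have h2 : ∀ a : Fin 7, x (a, false) = x (a, true) := fun a => hx.1 _ _ rfl
  simp only [h2, Finset.sum_add_distrib] at this
  linarith

def g (a : Fin 7) : P → ℝ := fun u => if u.1 = a then 6 else -1

lemma sum_perm : ∀ a c : Fin 7, c ≠ a →
    (Finset.univ.erase (0 : Fin 7)).image (fun m => m * c + (a - m * a)) = Finset.univ.erase a := by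
  decide +kernel

lemma sum_inj : ∀ a c : Fin 7, c ≠ a → ∀ m m' : Fin 7,
    m * c + (a - m * a) = m' * c + (a - m' * a) → m = m' := by decide +kernel

lemma g_mem {U : Submodule ℝ (P → ℝ)} (hU : Invariant S U) (f : Fin 7 → ℝ)
    (hx : (fun u : P => f u.1) ∈ U) (hs : ∑ a, f a = 0) (a : Fin 7) (ha : f a ≠ 0) : g a ∈ U := by
  have h1 : ∑ m ∈ Finset.univ.erase (0 : Fin 7),
      (fun u : P => f (m * u.1 + (a - m * a))) ∈ U :=
    U.sum_mem fun m hm => comp_mem hU hx m (a - m * a) (Finset.ne_of_mem_erase hm)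
  have h2 : ∑ m ∈ Finset.univ.erase (0 : Fin 7), (fun u : P => f (m * u.1 + (a - m * a)))
      = f a • g a := by
    funext u
    simp only [Finset.sum_apply, Pi.smul_apply, g, smul_eq_mul]
    split_ifs with h
    · rw [h]
      simp [mul_comm]
    · rw [← Finset.sum_image (f := f) (fun m _ m' _ e => sum_inj a u.1 h m m' e), sum_perm a u.1 h,
        Finset.sum_erase_eq_sub (Finset.mem_univ a), hs]
      ring
  rw [h2] at h1
  exact (U.smul_mem_iff ha).1 h1

lemma shift : ∀ a c d : Fin 7, (1 * d + (a - c) = a ↔ d = c) := by decide +kernel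

lemma irr : Irred S W := by
  have g0 : g 0 ∈ W := ⟨fun u v h => by simp [g, h], by
    simp [g, Fintype.sum_prod_type, Fin.sum_univ_seven]; norm_num⟩
  refine ⟨fun h => ?_, fun σ hσ x hx => ⟨fun u v h => hx.1 _ _ (((S.inv_mem hσ).2 u v).2 h),
    by rw [Equiv.sum_comp σ.symm x]; exact hx.2⟩, fun U hUW hU => ?_⟩
  · rw [h, Submodule.mem_bot] at g0
    have := congrFun g0 (0, true)
    simp [g] at this
  · by_cases hb : U = ⊥
    · exact Or.inl hb
    refine Or.inr (le_antisymm hUW fun y hy => ?_)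
    obtain ⟨x, hx, hx0⟩ := Submodule.exists_mem_ne_zero_of_ne_bot hb
    obtain ⟨f, rfl, hf⟩ := rep (hUW hx)
    obtain ⟨a, ha⟩ : ∃ a, f a ≠ 0 := by
      by_contra hc
      push Not at hc
      exact hx0 (funext fun u => hc u.1)
    have ga := g_mem hU f hx hf a ha
    have gc : ∀ c, g c ∈ U := by
      intro c
      have := comp_mem hU ga 1 (a - c) (by decide)
      convert this using 1
      funext u
      simp only [g, t, shift]
    obtain ⟨h, rfl, hh⟩ := rep hy
    have : (fun u : P => h u.1) = ∑ c, (h c / 7) • g c := by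
      funext u
      have e : ∀ c, (h c / 7) * (if u.1 = c then (6 : ℝ) else -1)
          = (if u.1 = c then h c else 0) - h c / 7 := by
        intro c; split_ifs <;> ring
      simp only [Finset.sum_apply, Pi.smul_apply, g, smul_eq_mul, e, Finset.sum_sub_distrib,
        ← Finset.sum_div, hh]
      simp
    rw [this]
    exact U.sum_mem fun c _ => U.smul_mem _ (gc c)

lemma conn : G.Connected := by
  have h : ∀ u v, u = v ∨ G.Adj u v ∨ (∃ w, G.Adj u w ∧ G.Adj w v) ∨
      ∃ w z, G.Adj u w ∧ G.Adj w z ∧ G.Adj z v := by decide +kernel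
  refine ⟨fun u v => ?_⟩
  rcases h u v with rfl | h | ⟨w, h1, h2⟩ | ⟨w, z, h1, h2, h3⟩
  · rfl
  · exact h.reachable
  · exact h1.reachable.trans h2.reachable
  · exact (h1.reachable.trans h2.reachable).trans h3.reachable

lemma nb1 : G.neighborFinset (1, true) = {(2, false), (3, false), (5, false)} := by decide +kernel
lemma nb3 : G.neighborFinset (3, true) = {(4, false), (5, false), (0, false)} := by decide +kernel

theorem result : ¬ ∀ (V : Type) [Fintype V] [DecidableEq V] (G : SimpleGraph V)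
    [DecidableRel G.Adj], G.Connected → ∀ S : Subgroup (Equiv.Perm V),
    IsAutGroup G S → ArcTransitive G S → ∀ W : Submodule ℝ (V → ℝ), Irred S W →
    ∃ c : ℝ, ∀ x ∈ W, (G.adjMatrix ℝ).mulVec x = c • x := by
  intro h
  obtain ⟨c, hc⟩ := h P G conn S (fun σ hσ => hσ.1) (fun u v u' v' h1 h2 => by
    obtain ⟨m, b, hm, e1, e2⟩ := tarc u v u' v' h1 h2
    exact ⟨T m b hm, TS m b hm, e1, e2⟩) W irr
  have g0 : g 0 ∈ W := ⟨fun u v h => by simp [g, h], by
    simp [g, Fintype.sum_prod_type, Fin.sum_univ_seven]; norm_num⟩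
  have h1 := congrFun (hc _ g0) (1, true)
  have h3 := congrFun (hc _ g0) (3, true)
  rw [SimpleGraph.adjMatrix_mulVec_apply, nb1] at h1
  rw [SimpleGraph.adjMatrix_mulVec_apply, nb3] at h3
  rw [Finset.sum_insert (by decide), Finset.sum_insert (by decide), Finset.sum_singleton] at h1 h3
  simp [g] at h1 h3
  linarith

end Pool.Agent.Results.MP_63f2bb_co.Disproof
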